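import Pool.Agent.Helper9_KyFan.Basic

set_option autoImplicit false

open Matrix Module
open scoped Kronecker

namespace Pool.Agent.Results.MP_30f82a_an.KyFanFails

/-- `sigma X i` is the `(i+1)`-st largest singular value of the square complex matrix `X`
(singular values in non-increasing order, indexed from `0`), as Mathlib defines it for the
linear map of `X` on `EuclideanSpace ℂ (Fin n)`. -/
noncomputable def sigma {n : ℕ} (X : Matrix (Fin n) (Fin n) ℂ) (i : ℕ) : ℝ :=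
  (Matrix.toEuclideanLin X).singularValues i

/-- The Ky Fan `k`-norm: the sum of the `k` largest singular values. -/
noncomputable def kyFan {n : ℕ} (k : ℕ) (X : Matrix (Fin n) (Fin n) ℂ) : ℝ :=
  ∑ i ∈ Finset.range k, sigma X i

/-- The trace over the first tensor factor. -/
def ptrace {n : ℕ} (Z : Matrix (Fin n × Fin n) (Fin n × Fin n) ℂ) : Matrix (Fin n) (Fin n) ℂ :=
  Matrix.of fun i j => ∑ a, Z (a, i) (a, j)

/-- The Kronecker sum `A ⊗ I + I ⊗ A`. -/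
def kronS {n : ℕ} (A : Matrix (Fin n) (Fin n) ℂ) : Matrix (Fin n × Fin n) (Fin n × Fin n) ℂ :=
  A ⊗ₖ (1 : Matrix (Fin n) (Fin n) ℂ) + (1 : Matrix (Fin n) (Fin n) ℂ) ⊗ₖ A

/-- The difference `B ⊗ I - I ⊗ B`. -/
def kronD {n : ℕ} (B : Matrix (Fin n) (Fin n) ℂ) : Matrix (Fin n × Fin n) (Fin n × Fin n) ℂ :=
  B ⊗ₖ (1 : Matrix (Fin n) (Fin n) ℂ) - (1 : Matrix (Fin n) (Fin n) ℂ) ⊗ₖ B

/-- `L(A,B) = Tr₁ (S_A D_B)`. -/
def Lmat {n : ℕ} (A B : Matrix (Fin n) (Fin n) ℂ) : Matrix (Fin n) (Fin n) ℂ :=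
  ptrace (kronS A * kronD B)

/-- `R(B) = Tr₁ (D_B)`. -/
def Rmat {n : ℕ} (B : Matrix (Fin n) (Fin n) ℂ) : Matrix (Fin n) (Fin n) ℂ :=
  ptrace (kronD B)

variable {n : ℕ}

lemma ptrace_kronecker (X Y : Matrix (Fin n) (Fin n) ℂ) : ptrace (X ⊗ₖ Y) = X.trace • Y := by
  ext i j
  simp [ptrace, Matrix.trace, Finset.sum_mul]

lemma ptrace_add (X Y : Matrix (Fin n × Fin n) (Fin n × Fin n) ℂ) :
    ptrace (X + Y) = ptrace X + ptrace Y := by
  ext i j
  simp [ptrace, Finset.sum_add_distrib]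

lemma ptrace_sub (X Y : Matrix (Fin n × Fin n) (Fin n × Fin n) ℂ) :
    ptrace (X - Y) = ptrace X - ptrace Y := by
  ext i j
  simp [ptrace, Finset.sum_sub_distrib]

lemma Rmat_eq (B : Matrix (Fin n) (Fin n) ℂ) :
    Rmat B = B.trace • (1 : Matrix (Fin n) (Fin n) ℂ) - (n : ℂ) • B := by
  rw [Rmat, kronD, ptrace_sub, ptrace_kronecker, ptrace_kronecker]
  simp

lemma Lmat_eq (A B : Matrix (Fin n) (Fin n) ℂ) :
    Lmat A B = (A * B).trace • (1 : Matrix (Fin n) (Fin n) ℂ) - A.trace • B + B.trace • A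
      - (n : ℂ) • (A * B) := by
  rw [Lmat, kronS, kronD, add_mul, mul_sub, mul_sub, ← Matrix.mul_kronecker_mul,
    ← Matrix.mul_kronecker_mul, ← Matrix.mul_kronecker_mul, ← Matrix.mul_kronecker_mul,
    ptrace_add, ptrace_sub, ptrace_sub, ptrace_kronecker, ptrace_kronecker, ptrace_kronecker,
    ptrace_kronecker]
  simp
  abel

/-- Matrix units. -/
abbrev E (a b : Fin n) : Matrix (Fin n) (Fin n) ℂ := Matrix.single a b (1 : ℂ)

lemma E_mul (a b c d : Fin n) : E a b * E c d = if b = c then E a d else 0 := by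
  by_cases h : b = c
  · subst h; simp [E]
  · simp [E, h]

lemma trace_E (a b : Fin n) : (E a b).trace = if a = b then 1 else 0 := by
  by_cases h : a = b
  · subst h; simp [E]
  · simp [E, h]

/-- The matrix `A` of the example. -/
def exA (i2 : Fin n) : Matrix (Fin n) (Fin n) ℂ := 1 - (2 : ℂ) • E i2 i2

/-- The matrix `B` of the example. -/
def exB (i0 i1 i2 : Fin n) : Matrix (Fin n) (Fin n) ℂ :=
  (5 : ℂ) • E i0 i0 - E i1 i1 - (2 : ℂ) • E i1 i2 - (2 : ℂ) • E i2 i1 - (4 : ℂ) • E i2 i2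

/-- The orthogonal matrix used in the duality bound. -/
noncomputable def exW (i0 i1 i2 : Fin n) : Matrix (Fin n) (Fin n) ℂ :=
  1 - (2 : ℂ) • E i0 i0 - (9/17 : ℂ) • E i1 i1 - (9/17 : ℂ) • E i2 i2
    - (15/17 : ℂ) • E i1 i2 + (15/17 : ℂ) • E i2 i1

lemma conjTranspose_E (a b : Fin n) : (E a b)ᴴ = E b a := by
  simp [E]

lemma exA_herm (i2 : Fin n) : (exA i2).IsHermitian := by
  simp [Matrix.IsHermitian, exA]

lemma exB_herm (i0 i1 i2 : Fin n) : (exB i0 i1 i2).IsHermitian := by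
  simp [Matrix.IsHermitian, exB]
  abel

lemma exA_sq (i2 : Fin n) : (exA i2)ᴴ * exA i2 = 1 := by
  rw [(exA_herm i2).eq]
  simp only [exA, mul_sub, sub_mul, mul_one, one_mul, Matrix.smul_mul, Matrix.mul_smul, E_mul,
    if_true]
  module

lemma exW_sq {i0 i1 i2 : Fin n} (h01 : i0 ≠ i1) (h02 : i0 ≠ i2) (h12 : i1 ≠ i2) :
    (exW i0 i1 i2)ᴴ * exW i0 i1 i2 = 1 := by
  have hct : (exW i0 i1 i2)ᴴ = 1 - (2 : ℂ) • E i0 i0 - (9/17 : ℂ) • E i1 i1 - (9/17 : ℂ) • E i2 i2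
    - (15/17 : ℂ) • E i2 i1 + (15/17 : ℂ) • E i1 i2 := by
    simp [exW]
  rw [hct]
  simp only [exW, mul_sub, sub_mul, mul_add, add_mul, mul_one, one_mul, Matrix.smul_mul,
    Matrix.mul_smul, E_mul, if_true, h01, h02, h12, h01.symm, h02.symm, h12.symm, if_false,
    smul_zero]
  module

lemma trace_exA (i2 : Fin n) : (exA i2).trace = n - 2 := by
  simp [exA]

lemma trace_exB {i0 i1 i2 : Fin n} (h12 : i1 ≠ i2) :
    (exB i0 i1 i2).trace = 0 := by
  simp only [exB, Matrix.trace_sub, Matrix.trace_smul, trace_E, if_true, h12, h12.symm, if_false]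
  norm_num

lemma trace_exAB {i0 i1 i2 : Fin n} (h02 : i0 ≠ i2) (h12 : i1 ≠ i2) :
    (exA i2 * exB i0 i1 i2).trace = 8 := by
  simp only [exA, exB, mul_sub, sub_mul, one_mul, Matrix.smul_mul,
    Matrix.mul_smul, E_mul, Matrix.trace_sub, Matrix.trace_smul, trace_E, if_true, h02, h12,
    h02.symm, h12.symm, if_false, smul_zero, Matrix.trace_zero]
  norm_num

lemma trace_exWL {i0 i1 i2 : Fin n} (h01 : i0 ≠ i1) (h02 : i0 ≠ i2) (h12 : i1 ≠ i2) :
    (exW i0 i1 i2 * Lmat (exA i2) (exB i0 i1 i2)).trace =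
      18 * n - 42 + (76 * n + 48) / 17 := by
  rw [Lmat_eq, trace_exA, trace_exB h12, trace_exAB h02 h12]
  simp only [exW, exA, exB, mul_sub, sub_mul, mul_add, add_mul, mul_one, one_mul, Matrix.smul_mul,
    Matrix.mul_smul, E_mul, Matrix.trace_sub, Matrix.trace_add, Matrix.trace_smul, trace_E,
    if_true, h01, h02, h12, h01.symm, h02.symm, h12.symm, if_false, smul_zero, zero_smul,
    Matrix.trace_zero, Matrix.trace_one, Fintype.card_fin, smul_eq_mul, Matrix.mul_zero]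
  ring

lemma exB_sq {i0 i1 i2 : Fin n} (h01 : i0 ≠ i1) (h02 : i0 ≠ i2) (h12 : i1 ≠ i2) :
    exB i0 i1 i2 * exB i0 i1 i2 = (25 : ℂ) • E i0 i0 + (5 : ℂ) • E i1 i1 + (10 : ℂ) • E i1 i2
      + (10 : ℂ) • E i2 i1 + (20 : ℂ) • E i2 i2 := by
  simp only [exB, mul_sub, sub_mul, mul_add, add_mul, mul_one, one_mul, Matrix.smul_mul,
    Matrix.mul_smul, E_mul, if_true, h01, h02, h12, h01.symm, h02.symm, h12.symm, if_false,
    smul_zero]
  module

lemma exB_four {i0 i1 i2 : Fin n} (h01 : i0 ≠ i1) (h02 : i0 ≠ i2) (h12 : i1 ≠ i2) :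
    (exB i0 i1 i2 * exB i0 i1 i2) * (exB i0 i1 i2 * exB i0 i1 i2) =
      (25 : ℂ) • (exB i0 i1 i2 * exB i0 i1 i2) := by
  rw [exB_sq h01 h02 h12]
  simp only [mul_sub, sub_mul, mul_add, add_mul, mul_one, one_mul, Matrix.smul_mul,
    Matrix.mul_smul, E_mul, if_true, h01, h02, h12, h01.symm, h02.symm, h12.symm, if_false,
    smul_zero]
  module

lemma adjoint_comp_toEuclideanLin (X : Matrix (Fin n) (Fin n) ℂ) :
    (Matrix.toEuclideanLin X).adjoint ∘ₗ Matrix.toEuclideanLin X =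
      Matrix.toEuclideanLin (Xᴴ * X) := by
  rw [← Matrix.toEuclideanLin_conjTranspose_eq_adjoint]
  exact (Matrix.toLpLin_mul_same 2 Xᴴ X).symm

lemma trace_toEuclideanLin (X : Matrix (Fin n) (Fin n) ℂ) :
    LinearMap.trace ℂ _ (Matrix.toEuclideanLin X) = X.trace := by
  rw [Matrix.toEuclideanLin_eq_toLin_orthonormal]
  exact Matrix.trace_toLin_eq _ _

lemma norm_toEuclideanLin_of_unitary {W : Matrix (Fin n) (Fin n) ℂ} (hW : Wᴴ * W = 1)
    (x : EuclideanSpace ℂ (Fin n)) : ‖Matrix.toEuclideanLin W x‖ = ‖x‖ := by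
  have h1 : (inner ℂ (Matrix.toEuclideanLin W x) (Matrix.toEuclideanLin W x) : ℂ) = inner ℂ x x := by
    rw [← LinearMap.adjoint_inner_right, ← LinearMap.comp_apply, adjoint_comp_toEuclideanLin, hW,
      Matrix.toLpLin_one, LinearMap.id_apply]
  have h2 : ‖Matrix.toEuclideanLin W x‖ ^ 2 = ‖x‖ ^ 2 := by
    rw [inner_self_eq_norm_sq_to_K, inner_self_eq_norm_sq_to_K] at h1
    exact_mod_cast h1
  exact (pow_left_inj₀ (norm_nonneg _) (norm_nonneg _) two_ne_zero).1 h2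

lemma sigma_nonneg (X : Matrix (Fin n) (Fin n) ℂ) (i : ℕ) : 0 ≤ sigma X i :=
  LinearMap.singularValues_nonneg _ _

lemma sum_sigma_R {i0 i1 i2 : Fin n} (hn : 0 < n) (h01 : i0 ≠ i1) (h02 : i0 ≠ i2) (h12 : i1 ≠ i2) :
    ∑ i ∈ Finset.range n, sigma (Rmat (exB i0 i1 i2)) i = 10 * n := by
  have hn' : (0 : ℝ) < n := by exact_mod_cast hn
  have hR : Rmat (exB i0 i1 i2) = (-(n : ℂ)) • exB i0 i1 i2 := by
    rw [Rmat_eq, trace_exB h12]
    simp
  have hRR : (Rmat (exB i0 i1 i2))ᴴ * Rmat (exB i0 i1 i2) =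
      ((n : ℂ) ^ 2) • (exB i0 i1 i2 * exB i0 i1 i2) := by
    rw [hR, Matrix.conjTranspose_smul, (exB_herm i0 i1 i2).eq, Matrix.smul_mul, Matrix.mul_smul,
      smul_smul]
    congr 1
    simp
    ring
  have key := Pool.Agent.Helper9_KyFan.sum_singularValues_of_sq (n := n)
    (by simp) (Matrix.toEuclideanLin (Rmat (exB i0 i1 i2))) (5 * n) (by positivity) ?_
  · unfold sigma
    rw [key, adjoint_comp_toEuclideanLin, trace_toEuclideanLin, hRR, exB_sq h01 h02 h12]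
    simp only [Matrix.trace_add, Matrix.trace_smul, trace_E, if_true, h12, h12.symm, if_false]
    have : ((n : ℂ) ^ 2 • ((25 : ℂ) • (1 : ℂ) + (5 : ℂ) • (1 : ℂ) + (10 : ℂ) • (0 : ℂ)
        + (10 : ℂ) • (0 : ℂ) + (20 : ℂ) • (1 : ℂ))) = ((50 * n ^ 2 : ℝ) : ℂ) := by
      push_cast
      simp only [smul_eq_mul]
      ring
    rw [this, Complex.ofReal_re]
    field_simp
    norm_num
  · rw [adjoint_comp_toEuclideanLin, hRR]
    rw [show Matrix.toEuclideanLin ((n : ℂ) ^ 2 • (exB i0 i1 i2 * exB i0 i1 i2)) ∘ₗ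
      Matrix.toEuclideanLin ((n : ℂ) ^ 2 • (exB i0 i1 i2 * exB i0 i1 i2)) =
      Matrix.toEuclideanLin (((n : ℂ) ^ 2 • (exB i0 i1 i2 * exB i0 i1 i2)) *
        ((n : ℂ) ^ 2 • (exB i0 i1 i2 * exB i0 i1 i2))) from
        (Matrix.toLpLin_mul_same 2 _ _).symm]
    rw [Matrix.smul_mul, Matrix.mul_smul, exB_four h01 h02 h12, ← map_smul]
    congr 1
    rw [smul_smul, smul_smul, smul_smul]
    congr 1
    push_cast
    ring

/-- For every `n ≥ 16` there are Hermitian `A`, `B` of size `n` violating the proposed inequality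
with `k = n`. -/
theorem result (n : ℕ) (hn : 16 ≤ n) :
    ∃ A B : Matrix (Fin n) (Fin n) ℂ, A.IsHermitian ∧ B.IsHermitian ∧
      2 * ∑ i ∈ Finset.range n, sigma A i * sigma (Rmat B) i < kyFan n (Lmat A B) := by
  have h01 : (⟨0, by omega⟩ : Fin n) ≠ ⟨1, by omega⟩ := by simp
  have h02 : (⟨0, by omega⟩ : Fin n) ≠ ⟨2, by omega⟩ := by simp
  have h12 : (⟨1, by omega⟩ : Fin n) ≠ ⟨2, by omega⟩ := by simp
  set i0 : Fin n := ⟨0, by omega⟩
  set i1 : Fin n := ⟨1, by omega⟩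
  set i2 : Fin n := ⟨2, by omega⟩
  refine ⟨exA i2, exB i0 i1 i2, exA_herm i2, exB_herm i0 i1 i2, ?_⟩
  have hA : ∀ i ∈ Finset.range n, sigma (exA i2) i * sigma (Rmat (exB i0 i1 i2)) i =
      sigma (Rmat (exB i0 i1 i2)) i := by
    intro i hi
    have h1 : sigma (exA i2) i = 1 := by
      apply Pool.Agent.Helper9_KyFan.singularValues_of_isometry (n := n) (by simp)
      · rw [adjoint_comp_toEuclideanLin, exA_sq, Matrix.toLpLin_one]
      · exact Finset.mem_range.1 hi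
    rw [h1, one_mul]
  rw [Finset.sum_congr rfl hA, sum_sigma_R (by omega) h01 h02 h12]
  have hL := Pool.Agent.Helper9_KyFan.re_trace_comp_le (n := n) (by simp)
    (Matrix.toEuclideanLin (Lmat (exA i2) (exB i0 i1 i2))) (Matrix.toEuclideanLin (exW i0 i1 i2))
    (norm_toEuclideanLin_of_unitary (exW_sq h01 h02 h12))
  rw [show Matrix.toEuclideanLin (exW i0 i1 i2) ∘ₗ
      Matrix.toEuclideanLin (Lmat (exA i2) (exB i0 i1 i2)) =
      Matrix.toEuclideanLin (exW i0 i1 i2 * Lmat (exA i2) (exB i0 i1 i2)) from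
      (Matrix.toLpLin_mul_same 2 _ _).symm, trace_toEuclideanLin, trace_exWL h01 h02 h12] at hL
  have h3 : (18 * (n : ℂ) - 42 + (76 * n + 48) / 17) =
      ((18 * n - 42 + (76 * n + 48) / 17 : ℝ) : ℂ) := by
    push_cast
    ring
  rw [h3, Complex.ofReal_re] at hL
  have hn' : (16 : ℝ) ≤ n := by exact_mod_cast hn
  refine lt_of_lt_of_le ?_ hL
  linarith

end Pool.Agent.Results.MP_30f82a_an.KyFanFails
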